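import Mathlib

/-!
Definitions: differential 1-forms on a smooth manifold, their exterior derivative, `q`-contact
structures, Reeb fields, the contact action and the leaves of the contact foliation.
-/

set_option autoImplicit false

open scoped Manifold ContDiff

noncomputable section

namespace Pool.Agent.Lib.MP_666db5_gt

/-- A (not yet smooth) 1-form on a manifold `M` modelled on the real vector space `E`: a linear
functional on each tangent space. -/
abbrev OneForm (E : Type) [NormedAddCommGroup E] [NormedSpace ℝ E] (M : Type)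
    [TopologicalSpace M] [ChartedSpace E M] : Type :=
  (x : M) → TangentSpace 𝓘(ℝ, E) x →L[ℝ] ℝ

variable {E : Type} [NormedAddCommGroup E] [NormedSpace ℝ E]
  {M : Type} [TopologicalSpace M] [ChartedSpace E M]

/-- The 1-form is smooth: it is a `C^∞` section of the cotangent bundle `Hom(TM, ℝ)`. -/
def IsSmoothForm [IsManifold 𝓘(ℝ, E) ∞ M] (l : OneForm E M) : Prop :=
  ContMDiff 𝓘(ℝ, E) (𝓘(ℝ, E).prod 𝓘(ℝ, E →L[ℝ] ℝ)) ∞
    (fun x : M => Bundle.TotalSpace.mk' (E →L[ℝ] ℝ)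
      (E := fun x : M => TangentSpace 𝓘(ℝ, E) x →L[ℝ] Bundle.Trivial M ℝ x) x (l x))

/-- The coordinate expression of the 1-form `l` in the chart `φ` at `x`: the pull-back
`(φ⁻¹)^* l`, a 1-form on (an open subset of) `E`. -/
def formInChart (l : OneForm E M) (x : M) (y : E) :
    E →L[ℝ] ℝ :=
  (l ((extChartAt 𝓘(ℝ, E) x).symm y)).comp (mfderiv 𝓘(ℝ, E) 𝓘(ℝ, E) (extChartAt 𝓘(ℝ, E) x).symm y)

/-- The exterior derivative `dl` at `x`, evaluated on two tangent vectors `u, v`.  With `φ` the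
chart at `x`, `A` the coordinate expression of `l`, and `u', v'` the images of `u, v` under the
differential of `φ`, it is `(D_{u'} A)(v') - (D_{v'} A)(u')` at the point `φ x`. -/
def extD (l : OneForm E M) (x : M) (u v : TangentSpace 𝓘(ℝ, E) x) : ℝ :=
  fderiv ℝ (formInChart l x) (extChartAt 𝓘(ℝ, E) x x)
      (mfderiv 𝓘(ℝ, E) 𝓘(ℝ, E) (extChartAt 𝓘(ℝ, E) x) x u)
      (mfderiv 𝓘(ℝ, E) 𝓘(ℝ, E) (extChartAt 𝓘(ℝ, E) x) x v) -
    fderiv ℝ (formInChart l x) (extChartAt 𝓘(ℝ, E) x x)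
      (mfderiv 𝓘(ℝ, E) 𝓘(ℝ, E) (extChartAt 𝓘(ℝ, E) x) x v)
      (mfderiv 𝓘(ℝ, E) 𝓘(ℝ, E) (extChartAt 𝓘(ℝ, E) x) x u)

/-- A `q`-contact structure on a smooth manifold `M` modelled on `E`. -/
structure QContact (E : Type) [NormedAddCommGroup E] [NormedSpace ℝ E] (q : ℕ) (M : Type)
    [TopologicalSpace M] [ChartedSpace E M] [IsManifold 𝓘(ℝ, E) ∞ M] where
  /-- the 1-forms `λ_1, …, λ_q` -/
  lam : Fin q → OneForm E M
  /-- the bundle `𝓡` -/
  reeb : (x : M) → Submodule ℝ (TangentSpace 𝓘(ℝ, E) x)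
  /-- the bundle `ξ` -/
  xi : (x : M) → Submodule ℝ (TangentSpace 𝓘(ℝ, E) x)
  smooth : ∀ i, IsSmoothForm (lam i)
  /-- the forms are pointwise linearly independent -/
  linearIndependent : ∀ x, LinearIndependent ℝ (fun i => lam i x)
  /-- the splitting `TM = 𝓡 ⊕ ξ` -/
  isCompl : ∀ x, IsCompl (reeb x) (xi x)
  /-- `ξ` is the intersection of the kernels of the `λ_i` -/
  mem_xi : ∀ x v, v ∈ xi x ↔ ∀ i, lam i x v = 0
  /-- `dλ_i` restricted to `ξ` is non-degenerate -/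
  nondegenerate : ∀ i x, ∀ u ∈ xi x, (∀ v ∈ xi x, extD (lam i) x u v = 0) → u = 0
  /-- `ker dλ_i = 𝓡` -/
  mem_reeb : ∀ i x u, u ∈ reeb x ↔ ∀ v, extD (lam i) x u v = 0

variable [IsManifold 𝓘(ℝ, E) ∞ M] {q : ℕ}

/-- `R 1, …, R q` are the Reeb fields of the structure: smooth vector fields, sections of `𝓡`,
with `λ_j (R i) = δ_ij`. -/
def QContact.IsReebFrame (c : QContact E q M)
    (R : Fin q → (x : M) → TangentSpace 𝓘(ℝ, E) x) : Prop :=
  (∀ i, ContMDiff 𝓘(ℝ, E) 𝓘(ℝ, E).tangent ∞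
    (fun x : M => (⟨x, R i x⟩ : TangentBundle 𝓘(ℝ, E) M))) ∧
  (∀ i x, R i x ∈ c.reeb x) ∧
  (∀ i j x, c.lam j x (R i x) = if i = j then 1 else 0)

/-- `F` is the action of `ℝ^q` generated by the flows of the vector fields `R i`: a smooth action
of the additive group `ℝ^q` such that `τ ↦ F (τ e_i) x` is an integral curve of `R i`. -/
def IsActionOfFlows (R : Fin q → (x : M) → TangentSpace 𝓘(ℝ, E) x)
    (F : (Fin q → ℝ) → M → M) : Prop :=
  ContMDiff (𝓘(ℝ, Fin q → ℝ).prod 𝓘(ℝ, E)) 𝓘(ℝ, E) ∞ (fun p : (Fin q → ℝ) × M => F p.1 p.2) ∧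
  (∀ x, F 0 x = x) ∧
  (∀ s t x, F (s + t) x = F s (F t x)) ∧
  (∀ i x, IsMIntegralCurve (I := 𝓘(ℝ, E)) (fun τ : ℝ => F (Pi.single i τ) x) (R i))

/-- The leaf through `x` of the foliation by the orbits of the action `F`. -/
def leaf (F : (Fin q → ℝ) → M → M) (x : M) : Set M :=
  Set.range (fun t => F t x)

end Pool.Agent.Lib.MP_666db5_gt
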