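import Mathlib
import Pool.Agent.Lib.MP_666db5_gt.Defs

-- part Pool.Agent.Lib.MP_666db5_gt.Torus
section

/-!
The four-dimensional torus as a smooth manifold whose charts are local inverses of the covering
map from `ℝ^4`.
-/

set_option autoImplicit false

open scoped Manifold ContDiff Topology
open Set Filter

noncomputable section

namespace Pool.Agent.Lib.MP_666db5_gt

/-- Euclidean four-space. -/
abbrev E4 : Type := EuclideanSpace ℝ (Fin 4)

/-- The four-torus. -/
def T4 : Type := Fin 4 → AddCircle (2 * Real.pi)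

instance : TopologicalSpace T4 := inferInstanceAs (TopologicalSpace (Fin 4 → AddCircle (2 * Real.pi)))
instance : AddCommGroup T4 := inferInstanceAs (AddCommGroup (Fin 4 → AddCircle (2 * Real.pi)))
instance : T2Space T4 := inferInstanceAs (T2Space (Fin 4 → AddCircle (2 * Real.pi)))
instance : CompactSpace T4 :=
  haveI : Fact (0 < 2 * Real.pi) := ⟨Real.two_pi_pos⟩
  inferInstanceAs (CompactSpace (Fin 4 → AddCircle (2 * Real.pi)))
instance : ConnectedSpace T4 := inferInstanceAs (ConnectedSpace (Fin 4 → AddCircle (2 * Real.pi)))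
instance : IsTopologicalAddGroup T4 :=
  inferInstanceAs (IsTopologicalAddGroup (Fin 4 → AddCircle (2 * Real.pi)))

/-- The covering map. -/
def proj : E4 →+ T4 where
  toFun y := fun i => ((y i : ℝ) : AddCircle (2 * Real.pi))
  map_zero' := by
    funext i
    rfl
  map_add' y z := by
    funext i
    rfl

theorem proj_apply (y : E4) (i : Fin 4) : proj y i = ((y i : ℝ) : AddCircle (2 * Real.pi)) := rfl

theorem proj_surjective : Function.Surjective proj := by
  intro x
  have : ∀ i, ∃ r : ℝ, (r : AddCircle (2 * Real.pi)) = x i := fun i =>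
    QuotientAddGroup.mk_surjective (x i)
  choose r hr using this
  exact ⟨WithLp.toLp 2 r, funext hr⟩

theorem proj_eq_zero_iff (y : E4) : proj y = 0 ↔ ∀ i, ∃ k : ℤ, y i = k * (2 * Real.pi) := by
  constructor
  · intro h i
    have h1 : ((y i : ℝ) : AddCircle (2 * Real.pi)) = 0 := congrFun h i
    obtain ⟨k, hk⟩ := (AddCircle.coe_eq_zero_iff _).mp h1
    exact ⟨k, by rw [← hk, zsmul_eq_mul]⟩
  · intro h
    funext i
    obtain ⟨k, hk⟩ := h i
    change ((y i : ℝ) : AddCircle (2 * Real.pi)) = 0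
    exact (AddCircle.coe_eq_zero_iff _).mpr ⟨k, by rw [hk, zsmul_eq_mul]⟩

theorem isLocalHomeomorph_proj : IsLocalHomeomorph proj := by
  have h1 : IsLocalHomeomorph
      (fun (y : Fin 4 → ℝ) (i : Fin 4) => ((y i : ℝ) : AddCircle (2 * Real.pi))) := by
    intro y
    choose e he hf using fun i => AddCircle.isLocalHomeomorph_coe (2 * Real.pi) (y i)
    refine ⟨OpenPartialHomeomorph.pi e, fun i _ => he i, ?_⟩
    funext z i
    exact congrFun (hf i) (z i)
  exact h1.comp (PiLp.homeomorph 2 (fun _ : Fin 4 => ℝ)).isLocalHomeomorph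

theorem continuous_proj : Continuous proj := isLocalHomeomorph_proj.continuous

/-- A chosen lift of a point of the torus. -/
def lift (x : T4) : E4 := (proj_surjective x).choose

theorem proj_lift (x : T4) : proj (lift x) = x := (proj_surjective x).choose_spec

instance : ChartedSpace E4 T4 where
  atlas := Set.range (fun x => isLocalHomeomorph_proj.localInverseAt (lift x))
  chartAt x := isLocalHomeomorph_proj.localInverseAt (lift x)
  mem_chart_source x := by
    have := isLocalHomeomorph_proj.apply_self_mem_localInverseAt_source (x := lift x)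
    rwa [proj_lift] at this
  chart_mem_atlas x := ⟨x, rfl⟩

theorem chartAt_symm (x : T4) : ⇑(chartAt E4 x).symm = proj :=
  isLocalHomeomorph_proj.localInverseAt_symm (lift x)

theorem proj_chartAt {x z : T4} (hz : z ∈ (chartAt E4 x).source) : proj (chartAt E4 x z) = z := by
  rw [← chartAt_symm x]
  exact (chartAt E4 x).left_inv hz

theorem extChartAt_symm (x : T4) : ⇑(extChartAt (𝓡 4) x).symm = proj := by
  rw [← chartAt_symm x]
  rfl

theorem extChartAt_coe' (x : T4) : ⇑(extChartAt (𝓡 4) x) = chartAt E4 x := rfl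

/-- In every chart the covering map is locally a translation. -/
theorem chart_proj_eventuallyEq (x : T4) (y : E4) (hy : proj y ∈ (chartAt E4 x).source) :
    (fun w => chartAt E4 x (proj w)) =ᶠ[𝓝 y] fun w => w + (chartAt E4 x (proj y) - y) := by
  obtain ⟨U, hUo, hU0, hUinj⟩ := isLocalHomeomorph_proj.isLocallyInjective 0
  have hcont : ContinuousAt (fun w => chartAt E4 x (proj w) - w - (chartAt E4 x (proj y) - y)) y := by
    refine (ContinuousAt.sub ?_ continuousAt_id).sub continuousAt_const
    exact ContinuousAt.comp (f := proj) ((chartAt E4 x).continuousAt hy) continuous_proj.continuousAt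
  have h1 : ∀ᶠ w in 𝓝 y, chartAt E4 x (proj w) - w - (chartAt E4 x (proj y) - y) ∈ U := by
    apply hcont.preimage_mem_nhds
    simpa using hUo.mem_nhds hU0
  have h2 : ∀ᶠ w in 𝓝 y, proj w ∈ (chartAt E4 x).source :=
    continuous_proj.continuousAt.preimage_mem_nhds ((chartAt E4 x).open_source.mem_nhds hy)
  filter_upwards [h1, h2] with w hw1 hw2
  have h3 : chartAt E4 x (proj w) - w - (chartAt E4 x (proj y) - y) = 0 := by
    apply hUinj hw1 hU0
    simp only [map_sub, proj_chartAt hw2, proj_chartAt hy, sub_self, map_zero]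
  have h4 : chartAt E4 x (proj w) = w + (chartAt E4 x (proj y) - y) := by
    rw [← sub_eq_zero, ← h3]; abel
  exact h4

theorem hasFDerivAt_chart_proj (x : T4) (y : E4) (hy : proj y ∈ (chartAt E4 x).source) :
    HasFDerivAt (fun w => chartAt E4 x (proj w)) (ContinuousLinearMap.id ℝ E4) y :=
  ((hasFDerivAt_id y).add_const _).congr_of_eventuallyEq (chart_proj_eventuallyEq x y hy)

theorem contDiffAt_chart_proj (x : T4) (y : E4) (hy : proj y ∈ (chartAt E4 x).source) :
    ContDiffAt ℝ ∞ (fun w => chartAt E4 x (proj w)) y :=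
  (contDiffAt_id.add contDiffAt_const).congr_of_eventuallyEq (chart_proj_eventuallyEq x y hy)

instance : IsManifold (𝓡 4) ∞ T4 := by
  apply isManifold_of_contDiffOn
  rintro e e' ⟨x, rfl⟩ ⟨x', rfl⟩ y hy
  apply ContDiffAt.contDiffWithinAt
  have hy' : proj y ∈ (chartAt E4 x').source := by
    have h1 := hy.1
    simp only [modelWithCornersSelf_coe_symm, preimage_id_eq, id_eq,
      OpenPartialHomeomorph.trans_source, OpenPartialHomeomorph.symm_source, mem_inter_iff,
      mem_preimage] at h1
    have h2 := h1.2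
    rw [isLocalHomeomorph_proj.localInverseAt_symm] at h2
    exact h2
  have := contDiffAt_chart_proj x' y hy'
  convert this using 1
  funext w
  simp only [modelWithCornersSelf_coe, modelWithCornersSelf_coe_symm, Function.comp_apply, id_eq,
    OpenPartialHomeomorph.coe_trans]
  rw [isLocalHomeomorph_proj.localInverseAt_symm]
  rfl

theorem hasMFDerivAt_proj (y : E4) :
    HasMFDerivAt (𝓡 4) (𝓡 4) proj y (ContinuousLinearMap.id ℝ E4) := by
  refine ⟨continuous_proj.continuousAt, ?_⟩
  have := hasFDerivAt_chart_proj (proj y) y (mem_chart_source E4 (proj y))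
  exact this.hasFDerivWithinAt

theorem mfderiv_proj (y : E4) :
    mfderiv (𝓡 4) (𝓡 4) proj y = ContinuousLinearMap.id ℝ E4 :=
  (hasMFDerivAt_proj y).mfderiv

theorem contMDiff_proj : ContMDiff (𝓡 4) (𝓡 4) ∞ proj := by
  intro y
  rw [contMDiffAt_iff]
  refine ⟨continuous_proj.continuousAt, ?_⟩
  have := contDiffAt_chart_proj (proj y) y (mem_chart_source E4 (proj y))
  exact this.contDiffWithinAt

theorem tangentCoordChange_eq {x x' z : T4} (hz : z ∈ (chartAt E4 x).source)
    (hz' : z ∈ (chartAt E4 x').source) :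
    (tangentBundleCore (𝓡 4) T4).coordChange (achart E4 x) (achart E4 x') z =
      ContinuousLinearMap.id ℝ E4 := by
  rw [tangentBundleCore_coordChange_achart, extChartAt_symm, extChartAt_coe', extChartAt_coe',
    modelWithCornersSelf_coe, range_id, fderivWithin_univ]
  have h : proj (chartAt E4 x z) ∈ (chartAt E4 x').source := by rwa [proj_chartAt hz]
  exact (hasFDerivAt_chart_proj x' _ h).fderiv

theorem mfderiv_extChartAt_self (x : T4) :
    mfderiv (𝓡 4) (𝓡 4) (extChartAt (𝓡 4) x) x = ContinuousLinearMap.id ℝ E4 := by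
  have h := (hasMFDerivAt_extChartAt (I := 𝓡 4) (x := x) (mem_chart_source E4 x)).mfderiv
  rw [h]
  have h2 := mfderiv_chartAt_eq_tangentCoordChange (I := 𝓡 4) (x := x) (y := x)
    (mem_chart_source E4 x)
  rw [h2]
  exact tangentCoordChange_eq (mem_chart_source E4 x) (mem_chart_source E4 x)

/-- A function on the torus is smooth when its lift to `ℝ^4` is. -/
theorem contMDiff_of_comp_proj {F : Type} [NormedAddCommGroup F] [NormedSpace ℝ F] {f : T4 → F}
    (hf : ContDiff ℝ ∞ (fun y => f (proj y))) : ContMDiff (𝓡 4) 𝓘(ℝ, F) ∞ f := by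
  intro x
  have h1 : ContMDiffAt (𝓡 4) 𝓘(ℝ, F) ∞ ((fun y => f (proj y)) ∘ extChartAt (𝓡 4) x) x :=
    ContMDiffAt.comp x (hf.contMDiff.contMDiffAt) contMDiffAt_extChartAt
  refine h1.congr_of_eventuallyEq ?_
  filter_upwards [(chartAt E4 x).open_source.mem_nhds (mem_chart_source E4 x)] with z hz
  simp only [Function.comp_apply, extChartAt_coe', proj_chartAt hz]

end Pool.Agent.Lib.MP_666db5_gt
end
end

-- part Pool.Agent.Lib.MP_666db5_gt.Example
section

/-!
The 2-contact structure `λ₁ = cos z (dx - a dt) + sin z (dy - b dt)`, `λ₂ = λ₁ + dt` on the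
four-torus, with `a = √2`, `b = √3`.  No leaf of its contact foliation is compact.
-/

set_option autoImplicit false

open scoped Manifold ContDiff Topology
open Set Filter

noncomputable section

namespace Pool.Agent.Lib.MP_666db5_gt

/-- cosine of the third coordinate -/
def cs (x : T4) : ℝ := Real.Angle.cos (x 2)

/-- sine of the third coordinate -/
def sn (x : T4) : ℝ := Real.Angle.sin (x 2)

theorem cs_proj (y : E4) : cs (proj y) = Real.cos (y 2) := Real.Angle.cos_coe _

theorem sn_proj (y : E4) : sn (proj y) = Real.sin (y 2) := Real.Angle.sin_coe _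

theorem cs_sq_add_sn_sq (x : T4) : cs x ^ 2 + sn x ^ 2 = 1 := Real.Angle.cos_sq_add_sin_sq _

theorem cs_add {x : T4} {v : E4} (hv : v 2 = 0) : cs (x + proj v) = cs x := by
  obtain ⟨y, rfl⟩ := proj_surjective x
  rw [← map_add, cs_proj, cs_proj]
  simp [hv]

theorem sn_add {x : T4} {v : E4} (hv : v 2 = 0) : sn (x + proj v) = sn x := by
  obtain ⟨y, rfl⟩ := proj_surjective x
  rw [← map_add, sn_proj, sn_proj]
  simp [hv]

/-- coordinate functionals -/
def P (i : Fin 4) : E4 →L[ℝ] ℝ := EuclideanSpace.proj i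

@[simp] theorem P_apply (i : Fin 4) (v : E4) : P i v = v i := rfl

/-- `dx - a dt` -/
def fA : E4 →L[ℝ] ℝ := P 0 - √2 • P 3

/-- `dy - b dt` -/
def fB : E4 →L[ℝ] ℝ := P 1 - √3 • P 3

@[simp] theorem fA_apply (v : E4) : fA v = v 0 - √2 * v 3 := rfl

@[simp] theorem fB_apply (v : E4) : fB v = v 1 - √3 * v 3 := rfl

/-- the coefficient of `dt` added to the first form -/
def ee : Fin 2 → ℝ := ![0, 1]

/-- the two 1-forms, as functions with values in the dual of the model space -/
def formE (i : Fin 2) (x : T4) : E4 →L[ℝ] ℝ := cs x • fA + sn x • fB + ee i • P 3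

theorem formE_apply (i : Fin 2) (x : T4) (v : E4) :
    formE i x v = cs x * (v 0 - √2 * v 3) + sn x * (v 1 - √3 * v 3) + ee i * v 3 := rfl

/-- the two 1-forms -/
def form (i : Fin 2) : OneForm E4 T4 := fun x => formE i x

theorem contDiff_coord (i : Fin 4) : ContDiff ℝ ∞ (fun y : E4 => y i) := (P i).contDiff

theorem contMDiff_cs : ContMDiff (𝓡 4) 𝓘(ℝ, ℝ) ∞ cs := by
  apply contMDiff_of_comp_proj
  simp only [cs_proj]
  exact Real.contDiff_cos.comp (contDiff_coord 2)

theorem contMDiff_sn : ContMDiff (𝓡 4) 𝓘(ℝ, ℝ) ∞ sn := by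
  apply contMDiff_of_comp_proj
  simp only [sn_proj]
  exact Real.contDiff_sin.comp (contDiff_coord 2)

theorem contMDiff_formE (i : Fin 2) : ContMDiff (𝓡 4) 𝓘(ℝ, E4 →L[ℝ] ℝ) ∞ (formE i) := by
  apply contMDiff_of_comp_proj
  simp only [formE, cs_proj, sn_proj]
  exact (((Real.contDiff_cos.comp (contDiff_coord 2)).smul contDiff_const).add
    ((Real.contDiff_sin.comp (contDiff_coord 2)).smul contDiff_const)).add contDiff_const

theorem isSmoothForm_form (i : Fin 2) : IsSmoothForm (form i) := by
  intro x₀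
  rw [contMDiffAt_hom_bundle]
  refine ⟨contMDiffAt_id, ?_⟩
  refine ((contMDiff_formE i) x₀).congr_of_eventuallyEq ?_
  filter_upwards [(chartAt E4 x₀).open_source.mem_nhds (mem_chart_source E4 x₀)] with z hz
  simp only [ContinuousLinearMap.inCoordinates]
  rw [TangentBundle.symmL_trivializationAt_eq_core hz,
    tangentCoordChange_eq hz (mem_chart_source E4 z)]
  ext v
  simp only [form, Bundle.Trivial.fiberBundle_trivializationAt',
    Bundle.Trivial.continuousLinearMapAt_trivialization]
  rfl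

theorem formInChart_form (i : Fin 2) (x : T4) :
    formInChart (form i) x =
      fun y : E4 => Real.cos (y 2) • fA + Real.sin (y 2) • fB + ee i • P 3 := by
  funext y
  unfold formInChart
  rw [extChartAt_symm, mfderiv_proj]
  ext v
  change formE i (proj y) v = _
  rw [formE_apply, cs_proj, sn_proj]
  rfl

theorem hasFDerivAt_formInChart (i : Fin 2) (x : T4) (y : E4) :
    HasFDerivAt (formInChart (form i) x)
      (((-Real.sin (y 2)) • P 2).smulRight fA + ((Real.cos (y 2)) • P 2).smulRight fB) y := by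
  rw [formInChart_form]
  have h2 : HasFDerivAt (fun y : E4 => y 2) (P 2) y := (P 2).hasFDerivAt
  exact ((h2.cos.smul_const fA).add (h2.sin.smul_const fB)).add_const _

/-- the functional `-sin z (dx - a dt) + cos z (dy - b dt)` -/
def nu (x : T4) : E4 →L[ℝ] ℝ := (-sn x) • fA + cs x • fB

theorem nu_apply (x : T4) (v : E4) :
    nu x v = -sn x * (v 0 - √2 * v 3) + cs x * (v 1 - √3 * v 3) := rfl

theorem extD_form (i : Fin 2) (x : T4) (u v : E4) :
    extD (form i) x u v = u 2 * nu x v - v 2 * nu x u := by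
  unfold extD
  rw [(hasFDerivAt_formInChart i x _).fderiv, mfderiv_extChartAt_self]
  have hx : proj (extChartAt (𝓡 4) x x) = x := proj_chartAt (mem_chart_source E4 x)
  have hc : Real.cos (extChartAt (𝓡 4) x x 2) = cs x := by rw [← cs_proj, hx]
  have hs : Real.sin (extChartAt (𝓡 4) x x 2) = sn x := by rw [← sn_proj, hx]
  rw [hc, hs, nu_apply, nu_apply]
  change ((-sn x * u 2) * fA v + (cs x * u 2) * fB v) -
    ((-sn x * v 2) * fA u + (cs x * v 2) * fB u) = _
  rw [fA_apply, fA_apply, fB_apply, fB_apply]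
  ring

/-- a vector from its four coordinates -/
def vec (p q r s : ℝ) : E4 := WithLp.toLp 2 ![p, q, r, s]

@[simp] theorem vec_zero (p q r s : ℝ) : vec p q r s 0 = p := rfl
@[simp] theorem vec_one (p q r s : ℝ) : vec p q r s 1 = q := rfl
@[simp] theorem vec_two (p q r s : ℝ) : vec p q r s 2 = r := rfl
@[simp] theorem vec_three (p q r s : ℝ) : vec p q r s 3 = s := rfl

theorem E4_ext {u v : E4} (h0 : u 0 = v 0) (h1 : u 1 = v 1) (h2 : u 2 = v 2) (h3 : u 3 = v 3) :
    u = v := by
  ext i
  fin_cases i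
  exacts [h0, h1, h2, h3]

/-- the Reeb fields, as functions with values in the model space -/
def reebE (i : Fin 2) (x : T4) : E4 :=
  ((1 - ee i) * cs x) • vec 1 0 0 0 + ((1 - ee i) * sn x) • vec 0 1 0 0 +
    (2 * ee i - 1) • vec (√2) (√3) 0 1

theorem reebE_zero (i : Fin 2) (x : T4) :
    reebE i x 0 = (1 - ee i) * cs x + (2 * ee i - 1) * √2 := by simp [reebE]
theorem reebE_one (i : Fin 2) (x : T4) :
    reebE i x 1 = (1 - ee i) * sn x + (2 * ee i - 1) * √3 := by simp [reebE]
theorem reebE_two (i : Fin 2) (x : T4) : reebE i x 2 = 0 := by simp [reebE]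
theorem reebE_three (i : Fin 2) (x : T4) : reebE i x 3 = 2 * ee i - 1 := by simp [reebE]

theorem nu_reebE (i : Fin 2) (x : T4) : nu x (reebE i x) = 0 := by
  rw [nu_apply, reebE_zero, reebE_one, reebE_three]
  ring

theorem formE_reebE (i j : Fin 2) (x : T4) :
    formE j x (reebE i x) = if i = j then 1 else 0 := by
  rw [formE_apply, reebE_zero, reebE_one, reebE_three]
  have h := cs_sq_add_sn_sq x
  fin_cases i <;> fin_cases j <;> simp [ee] <;> nlinarith [h]

theorem contMDiff_reebE (i : Fin 2) : ContMDiff (𝓡 4) 𝓘(ℝ, E4) ∞ (reebE i) := by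
  apply contMDiff_of_comp_proj
  simp only [reebE, cs_proj, sn_proj]
  exact (((contDiff_const.mul (Real.contDiff_cos.comp (contDiff_coord 2))).smul
    contDiff_const).add ((contDiff_const.mul (Real.contDiff_sin.comp (contDiff_coord 2))).smul
    contDiff_const)).add contDiff_const

theorem reebE_add (i : Fin 2) {x : T4} {v : E4} (hv : v 2 = 0) :
    reebE i (x + proj v) = reebE i x := by
  simp only [reebE, cs_add hv, sn_add hv]

/-- the bundle spanned by the Reeb fields -/
def reebSub (x : T4) : Submodule ℝ E4 := (P 2).ker ⊓ (nu x).ker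

theorem mem_reebSub (x : T4) (u : E4) : u ∈ reebSub x ↔ u 2 = 0 ∧ nu x u = 0 := Iff.rfl

/-- the contact distribution -/
def xiSub (x : T4) : Submodule ℝ E4 := (formE 0 x).ker ⊓ (formE 1 x).ker

theorem mem_xiSub (x : T4) (u : E4) : u ∈ xiSub x ↔ formE 0 x u = 0 ∧ formE 1 x u = 0 := Iff.rfl

theorem eq_zero_of_mem {x : T4} {u : E4} (h2 : u 2 = 0) (hn : nu x u = 0) (h0 : formE 0 x u = 0)
    (h1 : formE 1 x u = 0) : u = 0 := by
  rw [nu_apply] at hn
  rw [formE_apply] at h0 h1
  simp only [ee, Matrix.cons_val_zero, Matrix.cons_val_one, zero_mul, add_zero, one_mul] at h0 h1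
  have h3 : u 3 = 0 := by linarith
  rw [h3] at hn h0
  have h := cs_sq_add_sn_sq x
  apply E4_ext
  · have : u 0 = cs x * (cs x * (u 0 - √2 * 0) + sn x * (u 1 - √3 * 0)) -
        sn x * (-sn x * (u 0 - √2 * 0) + cs x * (u 1 - √3 * 0)) := by
      linear_combination (-u 0) * h
    rw [this, h0, hn]
    simp
  · have : u 1 = sn x * (cs x * (u 0 - √2 * 0) + sn x * (u 1 - √3 * 0)) +
        cs x * (-sn x * (u 0 - √2 * 0) + cs x * (u 1 - √3 * 0)) := by
      linear_combination (-u 1) * h
    rw [this, h0, hn]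
    simp
  · exact h2
  · exact h3

theorem isCompl_sub (x : T4) : IsCompl (reebSub x) (xiSub x) := by
  constructor
  · rw [Submodule.disjoint_def]
    intro u hu hu'
    exact eq_zero_of_mem hu.1 hu.2 hu'.1 hu'.2
  · rw [codisjoint_iff, eq_top_iff]
    intro v _
    rw [Submodule.mem_sup]
    refine ⟨formE 0 x v • reebE 0 x + formE 1 x v • reebE 1 x, ?_,
      v - (formE 0 x v • reebE 0 x + formE 1 x v • reebE 1 x), ?_, by abel⟩
    · rw [mem_reebSub]
      constructor
      · simp [reebE_two]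
      · simp [nu_reebE]
    · rw [mem_xiSub]
      constructor <;> simp [formE_reebE]

theorem nu_vec_two (x : T4) : nu x (vec 0 0 1 0) = 0 := by rw [nu_apply]; simp

theorem nu_vec_rot (x : T4) : nu x (vec (-sn x) (cs x) 0 0) = 1 := by
  have hsq := cs_sq_add_sn_sq x
  rw [nu_apply]; simp; linarith

theorem nondeg_aux (i : Fin 2) (x : T4) (u : E4) (hu : u ∈ xiSub x)
    (h : ∀ v : E4, v ∈ xiSub x → extD (form i) x u v = 0) : u = 0 := by
  have h1 := h (vec 0 0 1 0) (by
    refine (mem_xiSub x _).mpr ⟨?_, ?_⟩ <;> rw [formE_apply] <;> simp)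
  have h2 := h (vec (-sn x) (cs x) 0 0) (by
    refine (mem_xiSub x _).mpr ⟨?_, ?_⟩ <;> rw [formE_apply] <;> simp <;> ring)
  rw [extD_form] at h1 h2
  rw [nu_vec_two] at h1
  rw [nu_vec_rot] at h2
  simp only [vec_two] at h1 h2
  exact eq_zero_of_mem (x := x) (by linarith) (by linarith) hu.1 hu.2

theorem mem_reeb_aux (i : Fin 2) (x : T4) (u : E4) :
    u ∈ reebSub x ↔ ∀ v : E4, extD (form i) x u v = 0 := by
  constructor
  · intro hu v
    have h2 : u 2 = 0 := hu.1
    have h3 : nu x u = 0 := hu.2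
    rw [extD_form, h2, h3]
    simp
  · intro h
    have h1 := h (vec 0 0 1 0)
    have h2 := h (vec (-sn x) (cs x) 0 0)
    rw [extD_form] at h1 h2
    rw [nu_vec_two] at h1
    rw [nu_vec_rot] at h2
    simp only [vec_two] at h1 h2
    exact (mem_reebSub x u).mpr ⟨by linarith, by linarith⟩

/-- The 2-contact structure. -/
def structure4 : QContact E4 2 T4 where
  lam := form
  reeb := fun x => reebSub x
  xi := fun x => xiSub x
  smooth := isSmoothForm_form
  linearIndependent := by
    intro x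
    rw [Fintype.linearIndependent_iff]
    intro g hg j
    have h1 : (∑ i, g i • formE i x) = 0 := hg
    have h2 := DFunLike.congr_fun h1 (reebE j x)
    fin_cases j <;> simpa [Fin.sum_univ_two, formE_reebE] using h2
  isCompl := isCompl_sub
  mem_xi := by
    intro x v
    rw [Fin.forall_fin_two]
    exact mem_xiSub x v
  nondegenerate := fun i x u hu h => nondeg_aux i x u hu h
  mem_reeb := fun i x u => mem_reeb_aux i x u

/-- The Reeb fields. -/
def reebField (i : Fin 2) (x : T4) : TangentSpace (𝓡 4) x := reebE i x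

theorem isReebFrame : structure4.IsReebFrame reebField := by
  refine ⟨fun i x₀ => ?_, fun i x => (mem_reebSub x _).mpr ⟨reebE_two i x, nu_reebE i x⟩,
    fun i j x => formE_reebE i j x⟩
  rw [Bundle.contMDiffAt_totalSpace]
  refine ⟨contMDiffAt_id, ?_⟩
  refine ((contMDiff_reebE i) x₀).congr_of_eventuallyEq ?_
  filter_upwards [(chartAt E4 x₀).open_source.mem_nhds (mem_chart_source E4 x₀)] with z hz
  have h := tangentCoordChange_eq (mem_chart_source E4 z) hz
  have h2 := DFunLike.congr_fun h (reebE i z)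
  exact h2

/-- The displacement vector of the contact action. -/
def disp (t : Fin 2 → ℝ) (x : T4) : E4 := t 0 • reebE 0 x + t 1 • reebE 1 x

theorem disp_two (t : Fin 2 → ℝ) (x : T4) : disp t x 2 = 0 := by simp [disp, reebE_two]

/-- The contact action. -/
def act (t : Fin 2 → ℝ) (x : T4) : T4 := x + proj (disp t x)

theorem contMDiff_act : ContMDiff (𝓘(ℝ, Fin 2 → ℝ).prod (𝓡 4)) (𝓡 4) ∞
    (fun p : (Fin 2 → ℝ) × T4 => act p.1 p.2) := by
  intro p₀
  have hc : ∀ i : Fin 2, ContMDiff (𝓘(ℝ, Fin 2 → ℝ).prod (𝓡 4)) 𝓘(ℝ, ℝ) ∞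
      (fun p : (Fin 2 → ℝ) × T4 => p.1 i) := fun i =>
    ((ContinuousLinearMap.proj (R := ℝ) (φ := fun _ : Fin 2 => ℝ) i).contDiff.contMDiff).comp
      contMDiff_fst
  have hd : ContMDiff (𝓘(ℝ, Fin 2 → ℝ).prod (𝓡 4)) 𝓘(ℝ, E4) ∞
      (fun p : (Fin 2 → ℝ) × T4 => disp p.1 p.2) :=
    ((hc 0).smul ((contMDiff_reebE 0).comp contMDiff_snd)).add
      ((hc 1).smul ((contMDiff_reebE 1).comp contMDiff_snd))
  have he : ContMDiffAt (𝓘(ℝ, Fin 2 → ℝ).prod (𝓡 4)) 𝓘(ℝ, E4) ∞
      (fun p : (Fin 2 → ℝ) × T4 => extChartAt (𝓡 4) p₀.2 p.2) p₀ :=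
    ContMDiffAt.comp p₀ (contMDiffAt_extChartAt (I := 𝓡 4) (x := p₀.2)) contMDiffAt_snd
  have h1 : ContMDiffAt (𝓘(ℝ, Fin 2 → ℝ).prod (𝓡 4)) (𝓡 4) ∞
      (fun p : (Fin 2 → ℝ) × T4 => proj (extChartAt (𝓡 4) p₀.2 p.2 + disp p.1 p.2)) p₀ :=
    ContMDiffAt.comp p₀ (contMDiff_proj _) (he.add (hd p₀))
  refine h1.congr_of_eventuallyEq ?_
  have h2 : ∀ᶠ p : (Fin 2 → ℝ) × T4 in 𝓝 p₀, p.2 ∈ (chartAt E4 p₀.2).source :=
    continuous_snd.continuousAt.preimage_mem_nhds
      ((chartAt E4 p₀.2).open_source.mem_nhds (mem_chart_source E4 p₀.2))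
  filter_upwards [h2] with p hp
  rw [map_add, extChartAt_coe', proj_chartAt hp]
  rfl

theorem act_single (i : Fin 2) (τ : ℝ) (x : T4) :
    act (Pi.single i τ) x = proj (lift x + τ • reebE i x) := by
  rw [map_add, proj_lift, act]
  congr 2
  fin_cases i <;> simp [disp]

theorem isActionOfFlows : IsActionOfFlows reebField act := by
  refine ⟨contMDiff_act, fun x => ?_, fun s t x => ?_, fun i x τ => ?_⟩
  · simp [act, disp]
  · have h : disp s (x + proj (disp t x)) = disp s x := by
      have h0 := reebE_add 0 (x := x) (disp_two t x)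
      have h1 := reebE_add 1 (x := x) (disp_two t x)
      rw [disp, h0, h1]
      rfl
    simp only [act]
    rw [h, add_assoc, ← map_add]
    congr 2
    simp only [disp, Pi.add_apply, add_smul]
    abel
  · have h1 : HasFDerivAt (fun τ : ℝ => lift x + τ • reebE i x)
        ((1 : ℝ →L[ℝ] ℝ).smulRight (reebE i x)) τ :=
      ((hasFDerivAt_id τ).smul_const (reebE i x)).const_add _
    have h2 := (hasMFDerivAt_proj (lift x + τ • reebE i x)).comp τ h1.hasMFDerivAt
    have h3 : (fun τ : ℝ => act (Pi.single i τ) x) =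
        proj ∘ (fun τ : ℝ => lift x + τ • reebE i x) := by
      funext τ
      exact act_single i τ x
    have h4 : reebField i (act (Pi.single i τ) x) = reebE i x :=
      reebE_add i (disp_two _ x)
    rw [h4, h3]
    exact h2

theorem int_rel {m₀ m₁ m₃ : ℤ} (h : (m₃ : ℝ) + √2 * m₀ + √3 * m₁ = 0) : m₀ = 0 ∧ m₁ = 0 := by
  have h2 : (√2 : ℝ) ^ 2 = 2 := Real.sq_sqrt (by norm_num)
  have h3 : (√3 : ℝ) ^ 2 = 3 := Real.sq_sqrt (by norm_num)
  have i2 : Irrational (√2) := irrational_sqrt_two
  have i3 : Irrational (√3) := by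
    simpa using (Nat.prime_three).irrational_sqrt
  have key : ∀ (r : ℝ) (a b : ℤ), Irrational r → (a : ℝ) + r * b = 0 → b = 0 := by
    intro r a b hr hab
    by_contra hb
    have := (hr.mul_intCast hb).intCast_add a
    rw [hab] at this
    exact this ⟨0, by simp⟩
  -- (m₃ + √2 m₀)² = 3 m₁²
  have h4 : ((m₃ ^ 2 + 2 * m₀ ^ 2 - 3 * m₁ ^ 2 : ℤ) : ℝ) + √2 * ((2 * m₃ * m₀ : ℤ) : ℝ) = 0 := by
    push_cast
    have h5 : (m₃ : ℝ) + √2 * m₀ = -(√3 * m₁) := by linarith
    have h6 : ((m₃ : ℝ) + √2 * m₀) ^ 2 = (√3 * m₁) ^ 2 := by rw [h5]; ring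
    linear_combination h6 - (m₀ : ℝ) ^ 2 * h2 + (m₁ : ℝ) ^ 2 * h3
  have h7 := key _ _ _ i2 h4
  have h8 : m₃ = 0 ∨ m₀ = 0 := by
    rcases mul_eq_zero.mp h7 with h | h
    · left; omega
    · right; exact h
  rcases h8 with h9 | h9
  · -- √2 m₀ + √3 m₁ = 0 : multiply by √2
    have i6 : Irrational (√2 * √3) := by
      rw [← Real.sqrt_mul (by norm_num)]
      have : Irrational (√((6 : ℕ) : ℝ)) := by
        apply irrational_sqrt_natCast_iff.mpr
        rintro ⟨r, hr⟩
        have : r ≤ 3 := by nlinarith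
        interval_cases r <;> omega
      have h6 : ((6 : ℕ) : ℝ) = 2 * 3 := by norm_num
      rwa [h6] at this
    have h10 : ((2 * m₀ : ℤ) : ℝ) + (√2 * √3) * m₁ = 0 := by
      push_cast
      rw [h9] at h
      push_cast at h
      linear_combination √2 * h - (m₀ : ℝ) * h2
    have h11 := key _ _ _ i6 h10
    rw [h11] at h10
    have h12 : ((2 * m₀ : ℤ) : ℝ) = 0 := by simpa using h10
    have h13 : 2 * m₀ = 0 := by exact_mod_cast h12
    exact ⟨by omega, h11⟩
  · rw [h9] at h
    refine ⟨h9, key (√3) m₃ m₁ i3 ?_⟩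
    simpa using h

theorem not_isCompact_leaf (x : T4) : ¬ IsCompact (leaf act x) := by
  intro hc
  have hsq := cs_sq_add_sn_sq x
  let w : E4 := vec (-sn x) (cs x) 0 0
  have hw : nu x w = 1 := by
    rw [nu_apply]; simp [w]; linarith
  let g : (Fin 3 → ℤ) →+ ℝ :=
    { toFun := fun k => (2 * Real.pi) *
        (-sn x * ((k 0 : ℝ) - √2 * k 2) + cs x * ((k 1 : ℝ) - √3 * k 2))
      map_zero' := by simp
      map_add' := fun k l => by simp only [Pi.add_apply, Int.cast_add]; ring }
  have hg : ∀ k, g k = (2 * Real.pi) *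
      (-sn x * ((k 0 : ℝ) - √2 * k 2) + cs x * ((k 1 : ℝ) - √3 * k 2)) := fun _ => rfl
  have hset : (g.range : Set ℝ) = (fun s : ℝ => x + proj (s • w)) ⁻¹' leaf act x := by
    ext s
    simp only [SetLike.mem_coe, AddMonoidHom.mem_range, mem_preimage, leaf, mem_range, act,
      add_right_inj]
    constructor
    · rintro ⟨k, hk⟩
      let v : E4 := s • w - vec (k 0 * (2 * Real.pi)) (k 1 * (2 * Real.pi)) 0 (k 2 * (2 * Real.pi))
      have hv2 : v 2 = 0 := by simp [v, w]
      have hvn : nu x v = 0 := by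
        simp only [v, map_sub, map_smul, hw, smul_eq_mul, mul_one]
        rw [← hk, hg, nu_apply]
        simp only [vec_zero, vec_one, vec_three]
        ring
      refine ⟨![formE 0 x v, formE 1 x v], ?_⟩
      have hv : disp ![formE 0 x v, formE 1 x v] x = v := by
        rw [← sub_eq_zero]
        apply eq_zero_of_mem (x := x)
        · simp [disp_two, hv2]
        · simp [disp, nu_reebE, hvn]
        · simp [disp, formE_reebE]
        · simp [disp, formE_reebE]
      rw [hv]
      simp only [v, map_sub, sub_eq_self]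
      rw [proj_eq_zero_iff]
      intro i
      fin_cases i
      · exact ⟨k 0, rfl⟩
      · exact ⟨k 1, rfl⟩
      · exact ⟨0, by simp⟩
      · exact ⟨k 2, rfl⟩
    · rintro ⟨t, ht⟩
      have h0 : proj (s • w - disp t x) = 0 := by rw [map_sub, ht, sub_self]
      rw [proj_eq_zero_iff] at h0
      choose k hk using h0
      refine ⟨![k 0, k 1, k 3], ?_⟩
      have h1 : nu x (s • w - disp t x) = s := by
        simp [disp, nu_reebE, hw]
      rw [← h1, nu_apply, hk 0, hk 1, hk 3, hg]
      simp only [Matrix.cons_val_zero, Matrix.cons_val_one, Matrix.cons_val]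
      ring
  have hclosed : IsClosed (g.range : Set ℝ) := by
    rw [hset]
    refine hc.isClosed.preimage ?_
    exact continuous_const.add (continuous_proj.comp (continuous_id.smul continuous_const))
  have hcount : (g.range : Set ℝ).Countable := by
    rw [AddMonoidHom.coe_range]
    exact countable_range _
  rcases AddSubgroup.dense_or_cyclic g.range with hd | ⟨c, hcyc⟩
  · have : (g.range : Set ℝ) = univ := by rw [← hclosed.closure_eq, hd.closure_eq]
    rw [this] at hcount
    exact Cardinal.not_countable_real hcount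
  · have hm : ∀ k, ∃ m : ℤ, g k = m * c := by
      intro k
      have : g k ∈ g.range := ⟨k, rfl⟩
      rw [hcyc, AddSubgroup.mem_closure_singleton] at this
      obtain ⟨m, hm⟩ := this
      exact ⟨m, by rw [← hm, zsmul_eq_mul]⟩
    obtain ⟨m₀, h0⟩ := hm ![1, 0, 0]
    obtain ⟨m₁, h1⟩ := hm ![0, 1, 0]
    obtain ⟨m₃, h3⟩ := hm ![0, 0, 1]
    rw [hg] at h0 h1 h3
    simp only [Matrix.cons_val_zero, Matrix.cons_val_one, Matrix.cons_val, Int.cast_one,
      Int.cast_zero, mul_zero, sub_zero, mul_one, add_zero, zero_add, zero_sub] at h0 h1 h3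
    have hpi := Real.two_pi_pos
    have hne : ¬ (sn x = 0 ∧ cs x = 0) := by
      rintro ⟨ha, hb⟩
      rw [ha, hb] at hsq
      norm_num at hsq
    have hc0 : c ≠ 0 := by
      rintro rfl
      apply hne
      constructor
      · have : 2 * Real.pi * -sn x = 0 := by simpa using h0
        have := (mul_eq_zero.mp this).resolve_left hpi.ne'
        linarith
      · have : 2 * Real.pi * cs x = 0 := by simpa using h1
        exact (mul_eq_zero.mp this).resolve_left hpi.ne'
    have hrel : ((m₃ : ℝ) + √2 * m₀ + √3 * m₁) * c = 0 := by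
      linear_combination -h3 - √2 * h0 - √3 * h1
    obtain ⟨e0, e1⟩ := int_rel ((mul_eq_zero.mp hrel).resolve_right hc0)
    apply hne
    rw [e0] at h0
    rw [e1] at h1
    constructor
    · have : 2 * Real.pi * -sn x = 0 := by simpa using h0
      have := (mul_eq_zero.mp this).resolve_left hpi.ne'
      linarith
    · have : 2 * Real.pi * cs x = 0 := by simpa using h1
      exact (mul_eq_zero.mp this).resolve_left hpi.ne'

end Pool.Agent.Lib.MP_666db5_gt
end
end
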